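import Pool.Agent.Q299.IR.Arith

set_option autoImplicit false

/-!
# Classes with repeated multiplicities: the arithmetic of the expected dimensions
-/

namespace Pool.Agent.Q299.IG

open Pool.Agent.Q299.IR (two_ch two_ch')

variable {n : ℕ}

/-- the expected dimension of the system of degree `e` with the multiplicities `w` -/
def HH (w : Fin n → ℕ) (e : ℕ) : ℕ := (e + 2).choose 2 - ∑ i, (w i + 1).choose 2

theorem two_sum (w : Fin n → ℕ) :
    2 * ∑ i, (w i + 1).choose 2 = ∑ i, w i * w i + ∑ i, w i := by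
  rw [Finset.mul_sum, ← Finset.sum_add_distrib]
  refine Finset.sum_congr rfl fun i _ => ?_
  rw [two_ch]
  ring

/-- every value is attained at least ten times -/
def Rep (w : Fin n → ℕ) : Prop :=
  ∀ i, 10 ≤ (Finset.univ.filter fun j => w j = w i).card

theorem Rep.sum_ge {w : Fin n → ℕ} (h : Rep w) (i : Fin n) : 10 * w i ≤ ∑ j, w j := by
  have h1 : ∑ j ∈ Finset.univ.filter (fun j => w j = w i), w j ≤ ∑ j, w j :=
    Finset.sum_le_sum_of_subset (Finset.filter_subset _ _)
  have h2 : ∑ j ∈ Finset.univ.filter (fun j => w j = w i), w j =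
      (Finset.univ.filter (fun j => w j = w i)).card * w i := by
    rw [Finset.sum_congr rfl fun j hj => (Finset.mem_filter.1 hj).2, Finset.sum_const, smul_eq_mul]
  have h3 := Nat.mul_le_mul_right (w i) (h i)
  omega

/-- effective classes with repeated multiplicities have positive self-intersection -/
theorem sq_lt {w : Fin n → ℕ} {e : ℕ} (hw : Rep w) (he : 1 ≤ e) (h : 1 ≤ HH w e) :
    ∑ i, w i * w i < e * e := by
  unfold HH at h
  have h1 := two_ch' e
  have h2 := two_sum w
  have h3 : (e + 2) * (e + 1) = e * e + 3 * e + 2 := by ring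
  by_contra hcon
  push Not at hcon
  have h4 : ∑ i, w i ≤ 3 * e := by omega
  rcases Nat.eq_zero_or_pos n with rfl | hn
  · have : ∑ i : Fin 0, w i * w i = 0 := by simp
    have : 1 ≤ e * e := Nat.mul_pos he he
    omega
  obtain ⟨i, -, hi⟩ := Finset.exists_max_image Finset.univ w ⟨(⟨0, hn⟩ : Fin n), Finset.mem_univ _⟩
  have h5 : ∑ j, w j * w j ≤ w i * ∑ j, w j := by
    rw [Finset.mul_sum]
    exact Finset.sum_le_sum fun j _ => Nat.mul_le_mul_right _ (hi j (Finset.mem_univ j))
  have h6 := hw.sum_ge i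
  have h7 : w i * ∑ j, w j ≤ w i * (3 * e) := Nat.mul_le_mul_left _ h4
  have h8 : e * e ≤ 3 * w i * e := by
    calc e * e ≤ w i * (3 * e) := by omega
      _ = 3 * w i * e := by ring
  have h9 : e ≤ 3 * w i := Nat.le_of_mul_le_mul_right h8 he
  omega

/-- two effective classes with repeated multiplicities of positive degree meet -/
theorem inter_pos {w w' : Fin n → ℕ} {e e' : ℕ} (hw : Rep w) (hw' : Rep w') (he : 1 ≤ e)
    (he' : 1 ≤ e') (h : 1 ≤ HH w e) (h' : 1 ≤ HH w' e') : ∑ i, w i * w' i < e * e' := by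
  have h1 := sq_lt hw he h
  have h2 := sq_lt hw' he' h'
  by_contra hcon
  push Not at hcon
  have h3 : (∑ i, w i * w' i) * (∑ i, w i * w' i) ≤ (∑ i, w i * w i) * ∑ i, w' i * w' i := by
    have h4 := Finset.sum_mul_sq_le_sq_mul_sq (R := ℤ) Finset.univ (fun i : Fin n => (w i : ℤ))
      (fun i => (w' i : ℤ))
    simp only [pow_two] at h4
    exact_mod_cast h4
  have h4 : (e * e') * (e * e') ≤ (∑ i, w i * w' i) * (∑ i, w i * w' i) :=
    Nat.mul_le_mul hcon hcon
  have h5 : (∑ i, w i * w i) * ∑ i, w' i * w' i < (e * e) * (e' * e') := Nat.mul_lt_mul'' h1 h2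
  have e1 : (e * e') * (e * e') = (e * e) * (e' * e') := by ring
  omega

/-- the dimensions of two systems and of their sum -/
theorem split_le {w w' : Fin n → ℕ} {e e' : ℕ} (hw : Rep w) (hw' : Rep w') (he : 1 ≤ e)
    (he' : 1 ≤ e') (h : 1 ≤ HH w e) (h' : 1 ≤ HH w' e') :
    HH w e + HH w' e' ≤ HH (fun i => w i + w' i) (e + e') := by
  have hI := inter_pos hw hw' he he' h h'
  have h0 : HH (fun i => w i + w' i) (e + e') =
      (e + e' + 2).choose 2 - ∑ i, (w i + w' i + 1).choose 2 := rfl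
  rw [h0]
  unfold HH at *
  have h1 := two_ch' e
  have h3 := two_ch' e'
  have h5 := two_ch' (e + e')
  have h2 := two_sum w
  have h4 := two_sum w'
  have h6 := two_sum fun i => w i + w' i
  have q4 : (e + e' + 2) * (e + e' + 1) + 2 =
      (e + 2) * (e + 1) + (e' + 2) * (e' + 1) + 2 * (e * e') := by ring
  have q5 : ∑ i, (w i + w' i) * (w i + w' i) =
      ∑ i, w i * w i + ∑ i, w' i * w' i + 2 * ∑ i, w i * w' i := by
    rw [Finset.mul_sum, ← Finset.sum_add_distrib, ← Finset.sum_add_distrib]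
    exact Finset.sum_congr rfl fun i _ => by ring
  have q6 : ∑ i, (w i + w' i) = ∑ i, w i + ∑ i, w' i := Finset.sum_add_distrib
  rw [q5, q6] at h6
  omega

theorem HH_anti {w w' : Fin n → ℕ} {e : ℕ} (h : ∀ i, w i ≤ w' i) : HH w' e ≤ HH w e := by
  unfold HH
  have h1 : ∑ i, (w i + 1).choose 2 ≤ ∑ i, (w' i + 1).choose 2 :=
    Finset.sum_le_sum fun i _ => Nat.choose_le_choose 2 (by have := h i; omega)
  omega

/-- a class with larger multiplicities has fewer sections -/
theorem eq_of_HH {w w' : Fin n → ℕ} {e : ℕ} (h : ∀ i, w i ≤ w' i) (h1 : 1 ≤ HH w e)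
    (h2 : HH w e ≤ HH w' e) : ∀ i, w i = w' i := by
  by_contra hcon
  push Not at hcon
  obtain ⟨i, hi⟩ := hcon
  have h3 : ∑ i, (w i + 1).choose 2 < ∑ i, (w' i + 1).choose 2 := by
    refine Finset.sum_lt_sum (fun i _ => Nat.choose_le_choose 2 (by have := h i; omega))
      ⟨i, Finset.mem_univ i, ?_⟩
    have h4 : w i < w' i := lt_of_le_of_ne (h i) hi
    have h5 := two_ch (w i)
    have h6 := two_ch (w' i)
    have h7 : (w i + 1) * w i < (w' i + 1) * w' i := Nat.mul_lt_mul'' (by omega) h4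
    omega
  unfold HH at *
  omega

end Pool.Agent.Q299.IG
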