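import Pool.Agent.Q299.IG.Main
import Pool.Agent.TH167.SH.Conv
import Pool.Agent.Y205.AV.Large

set_option autoImplicit false

/-!
# Systems with repeated multiplicities: the dimensions

From the starting library (`Pool.Agent.Y205.AV.large_exp`): a class whose multiplicities take at most
`s` nonzero values has the expected dimension if the sum of the squares of the multiplicities is at
least `40000 s` times the largest one.
-/

namespace Pool.Agent.Q299.IG

open MvPolynomial Pool.Agent.W609 Pool.Agent.W609.CR Pool.Agent.TH167 Pool.Agent.TH167.SH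

variable {n : ℕ} {w0 : Fin n → ℕ}

/-- every value of `w` is attained at least `40000 s` times, `s` the number of the values -/
def Repeated (w : Fin n → ℕ) : Prop :=
  ∀ i, 40000 * (Finset.univ.image w).card ≤ (Finset.univ.filter fun j => w j = w i).card

theorem Repeated.rep (h : Repeated w0) : Rep w0 := fun i => by
  have h1 := h i
  have h2 : 0 < (Finset.univ.image w0).card :=
    Finset.card_pos.2 ⟨w0 i, Finset.mem_image_of_mem _ (Finset.mem_univ i)⟩
  omega

theorem card_image_le {a : Fin n → ℕ} (ha : GC w0 a) (S : Finset (Fin n)) :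
    (S.image a).card ≤ (Finset.univ.image w0).card := by
  classical
  rcases Nat.eq_zero_or_pos n with rfl | hn
  · have : S = ∅ := Finset.eq_empty_of_isEmpty S
    rw [this]
    simp
  haveI : Nonempty (Fin n) := ⟨⟨0, hn⟩⟩
  obtain ⟨f, hf⟩ : ∃ f : ℕ → ℕ, ∀ i, a i = f (w0 i) := by
    refine ⟨fun v => a (Function.invFun w0 v), fun i => ?_⟩
    exact ha _ _ (Function.invFun_eq ⟨i, rfl⟩).symm
  have h1 : S.image a ⊆ (Finset.univ.image w0).image f := by
    intro v hv
    obtain ⟨i, -, rfl⟩ := Finset.mem_image.1 hv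
    rw [hf i]
    exact Finset.mem_image_of_mem _ (Finset.mem_image_of_mem _ (Finset.mem_univ i))
  exact (Finset.card_le_card h1).trans Finset.card_image_le

theorem large {a : Fin n → ℕ} (hw : Repeated w0) (ha : GC w0 a) (h0 : ∃ i, a i ≠ 0) (e : ℕ) :
    Pool.Agent.Y205.AV.Large e a := by
  classical
  obtain ⟨i1, hi1⟩ := h0
  obtain ⟨i, -, hi⟩ := Finset.exists_max_image Finset.univ a ⟨i1, Finset.mem_univ _⟩
  have hi0 : 1 ≤ a i := by
    have := hi i1 (Finset.mem_univ _)
    omega
  refine ⟨Finset.univ.filter fun j => 1 ≤ a j, a i,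
    ((Finset.univ.filter fun j => 1 ≤ a j).image a).card, fun j _ => hi j (Finset.mem_univ j),
    fun j hj => ?_, le_rfl, Or.inr (Or.inr ⟨⟨i, ?_⟩, fun j hj => (Finset.mem_filter.1 hj).2, ?_⟩)⟩
  · by_contra hcon
    exact hj (Finset.mem_filter.2 ⟨Finset.mem_univ j, by omega⟩)
  · exact Finset.mem_filter.2 ⟨Finset.mem_univ i, hi0⟩
  · have h1 := card_image_le ha (Finset.univ.filter fun j => 1 ≤ a j)
    have h2 := hw i
    have h3 : Finset.univ.filter (fun j => w0 j = w0 i) ⊆ Finset.univ.filter fun j => 1 ≤ a j := by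
      intro j hj
      rw [Finset.mem_filter] at hj ⊢
      exact ⟨hj.1, by rw [ha _ _ hj.2]; exact hi0⟩
    have h4 : ∑ j ∈ Finset.univ.filter (fun j => w0 j = w0 i), a j ^ 2 =
        (Finset.univ.filter fun j => w0 j = w0 i).card * a i ^ 2 := by
      rw [Finset.sum_congr rfl fun j hj => by rw [ha _ _ (Finset.mem_filter.1 hj).2],
        Finset.sum_const, smul_eq_mul]
    calc 40000 * ((Finset.univ.filter fun j => 1 ≤ a j).image a).card * a i ^ 2
        ≤ (Finset.univ.filter fun j => w0 j = w0 i).card * a i ^ 2 :=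
          Nat.mul_le_mul_right _ (by omega)
      _ = ∑ j ∈ Finset.univ.filter (fun j => w0 j = w0 i), a j ^ 2 := h4.symm
      _ ≤ _ := Finset.sum_le_sum_of_subset h3

/-- the dimensions -/
theorem dims (hw : Repeated w0) {P : Fin n → Fin 2 → ℂ}
    (hP : AlgebraicIndependent ℚ (fun ij : Fin n × Fin 2 => P ij.1 ij.2)) (e : ℕ) (a : Fin n → ℕ)
    (ha : GC w0 a) : Module.finrank ℂ ↥(VS (fun i => aff (P i)) a e) = HH a e := by
  classical
  by_cases h0 : ∃ i, a i ≠ 0
  · have h := Pool.Agent.Y205.AV.large_exp (large hw ha h0 e) hP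
    unfold H932R3.ExpDim at h
    rw [vs_eq_forms]
    unfold H248R5.forms
    rw [h]
    rfl
  · push Not at h0
    have h : VS (fun i => aff (P i)) a e = homogeneousSubmodule (Fin 3) ℂ e := by
      ext f
      rw [mem_VS, mem_homogeneousSubmodule]
      refine ⟨fun h => h.1, fun h => ⟨h, fun i => ?_⟩⟩
      rw [h0 i]
      exact van_zero _ _
    rw [h, H248R6.finrank_homog]
    unfold HH
    simp [h0]

end Pool.Agent.Q299.IG
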