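import Pool.Agent.Q299.IG.Arith
import Pool.Agent.Q299.IR.Main

set_option autoImplicit false

/-!
# Systems with repeated multiplicities: no fixed part, irreducible members, conjugate components

The arguments of `Pool.Agent.Q299.IR.Main` for vectors of multiplicities which are constant on the
level sets of a given vector `w0`.
-/

namespace Pool.Agent.Q299.IG

open MvPolynomial Pool.Agent.W609 Pool.Agent.W609.CR Pool.Agent.TH167 Pool.Agent.TH167.SH
open Pool.Agent.Q299.IR (exists_gcd assoc_of_dvd ph ph_hom ph_ne ph_irr ph_dvd ph_symm_apply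
  ph_trans Acts exists_acts exists_ord ord_assoc VQ card_lt finrank_VQ hom_zero_unit
  deg_pos_of_not_unit not_unit_of_deg mem_VQ)

variable {n k : ℕ} {P : Fin n → Fin 2 → ℂ} {Q : Fin k → Fin 2 → ℂ} {w0 : Fin n → ℕ}

/-- `w` is constant on the level sets of `w0` -/
def GC (w0 w : Fin n → ℕ) : Prop := ∀ i j, w0 i = w0 j → w i = w j

theorem GC.refl (w0 : Fin n → ℕ) : GC w0 w0 := fun _ _ h => h

theorem GC.rep (hbig : Rep w0) {w : Fin n → ℕ} (h : GC w0 w) : Rep w := fun i =>
  (hbig i).trans (Finset.card_le_card fun j hj => by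
    rw [Finset.mem_filter] at hj ⊢
    exact ⟨hj.1, h _ _ hj.2⟩)

theorem GC.add {w w' : Fin n → ℕ} (h : GC w0 w) (h' : GC w0 w') :
    GC w0 fun i => w i + w' i := fun i j hij => by
  show w i + w' i = w j + w' j
  rw [h i j hij, h' i j hij]

theorem GC.sub {w w' : Fin n → ℕ} (h : GC w0 w) (h' : GC w0 w') :
    GC w0 fun i => w i - w' i := fun i j hij => by
  show w i - w' i = w j - w' j
  rw [h i j hij, h' i j hij]

theorem GC.max {w w' : Fin n → ℕ} (h : GC w0 w) (h' : GC w0 w') :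
    GC w0 fun i => Max.max (w i) (w' i) := fun i j hij => by
  show Max.max (w i) (w' i) = Max.max (w j) (w' j)
  rw [h i j hij, h' i j hij]

/-- the permutation preserves the level sets -/
def Pres (w0 : Fin n → ℕ) (σ : Equiv.Perm (Fin n)) : Prop := ∀ i, w0 (σ i) = w0 i

theorem Pres.symm {σ : Equiv.Perm (Fin n)} (h : Pres w0 σ) : Pres w0 σ.symm := fun i => by
  have h1 := h (σ.symm i)
  rw [σ.apply_symm_apply] at h1
  exact h1.symm

theorem Pres.trans {σ σ' : Equiv.Perm (Fin n)} (h : Pres w0 σ) (h' : Pres w0 σ') :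
    Pres w0 (σ.trans σ') := fun i => by
  rw [Equiv.trans_apply, h', h]

theorem pres_swap {i j : Fin n} (h : w0 i = w0 j) : Pres w0 (Equiv.swap i j) := fun l => by
  rw [Equiv.swap_apply_def]
  split_ifs with h1 h2
  · rw [h1, h]
  · rw [h2, h]
  · rfl

/-- the conjugates of a form by the automorphisms preserving the level sets are associated to it -/
def GInv (w0 : Fin n → ℕ) (P : Fin n → Fin 2 → ℂ) (Q : Fin k → Fin 2 → ℂ)
    (F : MvPolynomial (Fin 3) ℂ) : Prop :=
  ∀ τ σ, Acts P Q τ σ → Pres w0 σ → Associated (ph τ F) F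

theorem ord_unique {v : Fin 3 → ℂ} {a b : ℕ} {f : MvPolynomial (Fin 3) ℂ} (ha : Ord v a f)
    (hb : Ord v b f) : a = b := by
  rcases lt_trichotomy a b with h | h | h
  · exact absurd (van_mono h hb.1) ha.2
  · exact h
  · exact absurd (van_mono h ha.1) hb.2

theorem GInv.gc
    (hPQ : AlgebraicIndependent ℚ (fun ij : Fin (n + k) × Fin 2 => Fin.append P Q ij.1 ij.2))
    {F : MvPolynomial (Fin 3) ℂ} (hF : GInv w0 P Q F) {u : Fin n → ℕ}
    (hu : ∀ i, Ord (aff (P i)) (u i) F) : GC w0 u := by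
  intro i j hij
  obtain ⟨τ, hτ⟩ := exists_acts hPQ (Equiv.swap i j)
  have h1 := (hτ.ord i (u i) F).2 (hu i)
  rw [Equiv.swap_apply_left] at h1
  exact ord_unique (ord_assoc (hF τ _ hτ (pres_swap hij)) h1) (hu j)

theorem ph_mem {τ : ℂ ≃+* ℂ} {σ : Equiv.Perm (Fin n)} (h : Acts P Q τ σ) (hσ : Pres w0 σ)
    {w : Fin n → ℕ} (hw : GC w0 w) {d : ℕ}
    {f : MvPolynomial (Fin 3) ℂ} (hf : f ∈ VS (fun i => aff (P i)) w d) :
    ph τ f ∈ VS (fun i => aff (P i)) w d := by
  rw [mem_VS] at hf ⊢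
  refine ⟨ph_hom τ hf.1, fun i => ?_⟩
  have h2 := hf.2 (σ.symm i)
  rw [hw _ _ (hσ.symm i)] at h2
  have h1 := (h.van (σ.symm i) (w i) f).2 h2
  rwa [σ.apply_symm_apply] at h1

theorem ph_memQ {τ : ℂ ≃+* ℂ} {σ : Equiv.Perm (Fin n)} (h : Acts P Q τ σ) (hσ : Pres w0 σ)
    {w : Fin n → ℕ} (hw : GC w0 w) {d : ℕ}
    {S : Finset (Fin k)} {f : MvPolynomial (Fin 3) ℂ} (hf : f ∈ VQ P Q w S d) :
    ph τ f ∈ VQ P Q w S d := by
  refine ⟨ph_mem h hσ hw hf.1, fun j hj => ?_⟩
  rw [← van_one, h.vanQ, van_one]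
  exact hf.2 j hj

theorem HH_zero_le (w : Fin n → ℕ) : HH w 0 ≤ 1 := by
  unfold HH
  simp

section

variable (hbig : Rep w0)
  (hPQ : AlgebraicIndependent ℚ (fun ij : Fin (n + k) × Fin 2 => Fin.append P Q ij.1 ij.2))
  (hU : ∀ e (a : Fin n → ℕ), GC w0 a →
    Module.finrank ℂ ↥(VS (fun i => aff (P i)) a e) = HH a e)

include hbig hPQ hU

/-- two parts of a curve of a system, with multiplicities constant on the level sets -/
theorem split_main {w : Fin n → ℕ} (hw : GC w0 w) {d e e' : ℕ} {a : Fin n → ℕ} (hd : e + e' = d)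
    {A B : MvPolynomial (Fin 3) ℂ} (hA0 : A ≠ 0)
    (hB0 : B ≠ 0) (hA : A.IsHomogeneous e) (hAa : ∀ i, Ord (aff (P i)) (a i) A) (haG : GC w0 a)
    (hAB : A * B ∈ VS (fun i => aff (P i)) w d) (he : 1 ≤ e) (he' : 1 ≤ e') :
    ((Finset.univ.filter fun j => eval (aff (Q j)) A = 0).card + 1) +
      ((Finset.univ.filter fun j => eval (aff (Q j)) B = 0).card + 1) ≤ HH w d := by
  classical
  rw [mem_VS] at hAB
  have hB : B.IsHomogeneous e' := by
    have h1 := Pool.Agent.Chud.homog_of_dvd hAB.1 (mul_ne_zero hA0 hB0) ⟨A, mul_comm A B⟩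
    have h2 : (A * B).totalDegree = d := hAB.1.totalDegree (mul_ne_zero hA0 hB0)
    rw [totalDegree_mul_of_isDomain hA0 hB0, hA.totalDegree hA0] at h2
    have h3 : B.totalDegree = e' := by omega
    rwa [h3] at h1
  have hA1 : A ∈ VQ P Q a (Finset.univ.filter fun j => eval (aff (Q j)) A = 0) e :=
    ⟨(mem_VS _ _ _ _).2 ⟨hA, fun i => (hAa i).1⟩, fun j hj => (Finset.mem_filter.1 hj).2⟩
  have hB1 : B ∈ VQ P Q (fun i => w i - a i) (Finset.univ.filter fun j => eval (aff (Q j)) B = 0)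
      e' := by
    refine ⟨(mem_VS _ _ _ _).2 ⟨hB, fun i => ?_⟩, fun j hj => (Finset.mem_filter.1 hj).2⟩
    rcases le_or_gt (a i) (w i) with h | h
    · refine van_of_mul (hAa i) ?_
      rw [Nat.add_sub_cancel' h]
      exact hAB.2 i
    · have : w i - a i = 0 := by omega
      rw [this]
      exact van_zero _ _
  have h1 := card_lt hPQ hA1 hA0
  have h2 := card_lt hPQ hB1 hB0
  have hG := hw.sub haG
  rw [hU _ _ haG] at h1
  rw [hU _ _ hG] at h2
  have h3 := split_le (haG.rep hbig) (hG.rep hbig) he he' (by omega) (by omega)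
  have h4 : HH (fun i => a i + (w i - a i)) (e + e') ≤ HH w (e + e') :=
    HH_anti fun i => by omega
  rw [hd] at h3 h4
  omega

/-- **no fixed part** -/
theorem nofix {w : Fin n → ℕ} (hw : GC w0 w) {d : ℕ} (h2 : 2 ≤ HH w d)
    {G : MvPolynomial (Fin 3) ℂ}
    (hG : ∀ F ∈ VS (fun i => aff (P i)) w d, G ∣ F) : IsUnit G := by
  classical
  have hfin := vs_fin (fun i => aff (P i)) w d
  have hbot : VS (fun i => aff (P i)) w d ≠ ⊥ := by
    intro h
    have := hU d w hw
    rw [h, finrank_bot] at this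
    omega
  obtain ⟨F0, hF0, h0⟩ := Submodule.exists_mem_ne_zero_of_ne_bot hbot
  obtain ⟨H, hH0, hH⟩ := exists_gcd
    (VS (fun i => aff (P i)) w d : Set (MvPolynomial (Fin 3) ℂ)) hF0 h0
  have hHd : ∀ F ∈ VS (fun i => aff (P i)) w d, H ∣ F := (hH H).1 dvd_rfl
  have hF0' := (mem_VS _ _ _ _).1 hF0
  have hHh := Pool.Agent.Chud.homog_of_dvd hF0'.1 h0 (hHd F0 hF0)
  obtain ⟨e, he⟩ : ∃ e, e = H.totalDegree := ⟨_, rfl⟩
  rw [← he] at hHh
  have hinv : GInv w0 P Q H := by
    intro τ σ hτ hσ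
    refine assoc_of_dvd hH0 ((hH _).2 fun F hF => ?_) ?_
    · have h3 := ph_dvd τ (hHd _ (ph_mem hτ.symm hσ.symm hw hF))
      rwa [ph_symm_apply] at h3
    · rw [(ph_hom τ hHh).totalDegree (ph_ne τ hH0), ← he]
  have hex : ∀ i, ∃ m, Ord (aff (P i)) m H := fun i => exists_ord hH0 hHh
  choose a ha using hex
  have haG : GC w0 a := hinv.gc hPQ ha
  have hed : e ≤ d := by
    obtain ⟨c, hc⟩ := hHd F0 hF0
    have hc0 : c ≠ 0 := by
      rintro rfl
      exact h0 (by rw [hc, mul_zero])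
    have h3 : F0.totalDegree = d := hF0'.1.totalDegree h0
    rw [hc, totalDegree_mul_of_isDomain hH0 hc0] at h3
    omega
  have h1 : 1 ≤ HH a e := by
    have h3 := card_lt (S := ∅) hPQ (w := a) (d := e) (f := H)
      ⟨(mem_VS _ _ _ _).2 ⟨hHh, fun i => (ha i).1⟩, fun j hj => absurd hj (Finset.notMem_empty j)⟩ hH0
    rw [hU _ _ haG] at h3
    omega
  have ham : ∀ i, a i ≤ w i := by
    have h3 : VS (fun i => aff (P i)) w d ≤
        VS (fun i => aff (P i)) (fun i => Max.max (w i) (a i)) d := by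
      intro F hF
      obtain ⟨c, hc⟩ := hHd F hF
      refine (mem_VS _ _ _ _).2 ⟨((mem_VS _ _ _ _).1 hF).1, fun i => ?_⟩
      rcases le_total (w i) (a i) with h | h
      · rw [max_eq_right h, hc]
        exact van_mono (show a i ≤ a i + 0 by omega) (van_mul (ha i).1 (van_zero _ _))
      · rw [max_eq_left h]
        exact ((mem_VS _ _ _ _).1 hF).2 i
    have hfin2 := vs_fin (fun i => aff (P i)) (fun i => Max.max (w i) (a i)) d
    have h4 := Submodule.finrank_mono h3
    rw [hU _ _ hw, hU _ _ (hw.max haG)] at h4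
    intro i
    have h5 := eq_of_HH (fun i => le_max_left (w i) (a i)) (by omega) h4 i
    rw [h5]
    exact le_max_right _ _
  have h5 := vs_finrank (P := P) hH0 hHh (u := a) ha (d := d - e) (w := fun i => w i - a i)
    (by
      intro f hf
      have e1 : (fun i : Fin n => w i - a i + a i) = w := by
        funext i
        have := ham i
        omega
      rw [e1, Nat.sub_add_cancel hed] at hf
      exact hHd f hf)
  have e1 : (fun i : Fin n => w i - a i + a i) = w := by
    funext i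
    have := ham i
    omega
  rw [e1, Nat.sub_add_cancel hed, hU _ _ hw, hU _ _ (hw.sub haG)] at h5
  rcases Nat.eq_zero_or_pos e with he0 | he1
  · have h6 : IsUnit H := hom_zero_unit hH0 (by omega)
    exact isUnit_of_dvd_unit ((hH G).2 hG) h6
  · exfalso
    rcases Nat.eq_zero_or_pos (d - e) with h7 | h7
    · rw [h7] at h5
      have := HH_zero_le fun i => w i - a i
      omega
    · have h8 := split_le (haG.rep hbig) ((hw.sub haG).rep hbig) he1 h7 h1 (by omega)
      have h9 : HH (fun i => a i + (w i - a i)) (e + (d - e)) ≤ HH w (e + (d - e)) :=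
        HH_anti fun i => by omega
      rw [Nat.add_sub_cancel' hed] at h8 h9
      omega

/-- the form spanning the system through the points `Q` -/
theorem span_one {w : Fin n → ℕ} (hw : GC w0 w) {d : ℕ} (hk : HH w d = k + 1)
    {F F' : MvPolynomial (Fin 3) ℂ}
    (hF : F ∈ VQ P Q w Finset.univ d) (hF0 : F ≠ 0)
    (hF' : F' ∈ VQ P Q w Finset.univ d) : ∃ c : ℂ, F' = c • F := by
  have h1 := finrank_VQ hPQ w (Finset.univ) d
  rw [hU _ _ hw, Finset.card_univ, Fintype.card_fin, hk] at h1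
  have h2 : Module.finrank ℂ ↥(VQ P Q w Finset.univ d) = 1 := by omega
  have h3 := (finrank_eq_one_iff_of_nonzero' (⟨F, hF⟩ : ↥(VQ P Q w Finset.univ d))
    (fun h => hF0 (congrArg Subtype.val h))).1 h2 ⟨F', hF'⟩
  obtain ⟨c, hc⟩ := h3
  exact ⟨c, (congrArg Subtype.val hc).symm⟩

theorem inv_F {w : Fin n → ℕ} (hw : GC w0 w) {d : ℕ} (hk : HH w d = k + 1)
    {F : MvPolynomial (Fin 3) ℂ}
    (hF : F ∈ VQ P Q w Finset.univ d) (hF0 : F ≠ 0) : GInv w0 P Q F := by
  intro τ σ hτ hσ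
  obtain ⟨c, hc⟩ := span_one hbig hPQ hU hw hk hF hF0 (ph_memQ hτ hσ hw hF)
  have hhom := ((mem_VS _ _ _ _).1 hF.1).1
  refine (assoc_of_dvd (ph_ne τ hF0) ⟨C c, ?_⟩ ?_).symm
  · rw [hc, smul_eq_C_mul, mul_comm]
  · rw [(ph_hom τ hhom).totalDegree (ph_ne τ hF0), hhom.totalDegree hF0]

/-- **irreducible members** -/
theorem irr {w : Fin n → ℕ} (hw : GC w0 w) {d : ℕ} (hk1 : 1 ≤ k) (hk : HH w d = k + 1)
    {F : MvPolynomial (Fin 3) ℂ}
    (hF : F ∈ VQ P Q w Finset.univ d) (hF0 : F ≠ 0) : Irreducible F := by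
  classical
  have hFi := inv_F hbig hPQ hU hw hk hF hF0
  obtain ⟨hFh, hFm⟩ := (mem_VS _ _ _ _).1 hF.1
  have hd1 : 1 ≤ d := by
    by_contra hcon
    have h0 : d = 0 := by omega
    rw [h0] at hk
    have := HH_zero_le w
    omega
  have hFd : F.totalDegree = d := hFh.totalDegree hF0
  obtain ⟨G, hGi, F1, hGF⟩ := WfDvdMonoid.exists_irreducible_factor
    (not_unit_of_deg (by omega : 1 ≤ F.totalDegree)) hF0
  have hG0 := hGi.ne_zero
  have hF10 : F1 ≠ 0 := by
    rintro rfl
    exact hF0 (by rw [hGF, mul_zero])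
  have hGd : G.totalDegree + F1.totalDegree = d := by
    rw [← totalDegree_mul_of_isDomain hG0 hF10, ← hGF, hFd]
  have hGh := Pool.Agent.Chud.homog_of_dvd hFh hF0 ⟨F1, hGF⟩
  have hF1h := Pool.Agent.Chud.homog_of_dvd hFh hF0 ⟨G, by rw [hGF, mul_comm]⟩
  obtain ⟨f, hf⟩ : ∃ f, f = G.totalDegree := ⟨_, rfl⟩
  obtain ⟨f1, hf1⟩ : ∃ f1, f1 = F1.totalDegree := ⟨_, rfl⟩
  rw [← hf] at hGh hGd
  rw [← hf1] at hF1h hGd
  have hfpos : 1 ≤ f := by
    rw [hf]
    exact deg_pos_of_not_unit hG0 hGi.not_isUnit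
  rcases Nat.eq_zero_or_pos f1 with h0 | hf1pos
  · have h1 : IsUnit F1 := hom_zero_unit hF10 (by omega)
    rw [hGF]
    exact (irreducible_mul_isUnit h1).2 hGi
  exfalso
  -- the multiplicities of `G`
  have hex : ∀ i, ∃ m, Ord (aff (P i)) m G := fun i => exists_ord hG0 hGh
  choose u hu using hex
  have hF1w : F1 ∈ VS (fun i => aff (P i)) (fun i => w i - u i) f1 := by
    refine (mem_VS _ _ _ _).2 ⟨hF1h, fun i => ?_⟩
    rcases le_or_gt (u i) (w i) with h | h
    · refine van_of_mul (hu i) ?_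
      rw [Nat.add_sub_cancel' h, ← hGF]
      exact hFm i
    · have : w i - u i = 0 := by omega
      rw [this]
      exact van_zero _ _
  have hQ : ∀ j, eval (aff (Q j)) G = 0 ∨ eval (aff (Q j)) F1 = 0 := by
    intro j
    have h1 := hF.2 j (Finset.mem_univ j)
    rw [hGF, map_mul] at h1
    exact mul_eq_zero.1 h1
  -- the factor is invariant
  have hGinv : GInv w0 P Q G := by
    intro τ σ hτ hσ
    by_contra hcon
    have hd : ph τ G ∣ G * F1 := by
      rw [← hGF]
      exact (ph_dvd τ ⟨F1, hGF⟩).trans (hFi τ σ hτ hσ).dvd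
    have hpr : Prime (ph τ G) := (ph_irr τ hGi).prime
    have hd1 : ph τ G ∣ F1 := by
      rcases hpr.dvd_or_dvd hd with h | h
      · exact absurd ((ph_irr τ hGi).associated_of_dvd hGi h) hcon
      · exact h
    have hF1Q : F1 ∈ VQ P Q (fun i => w i - u i) Finset.univ f1 := by
      refine ⟨hF1w, fun j _ => ?_⟩
      rcases hQ j with h | h
      · have h1 : Van (aff (Q j)) 1 (ph τ G) := by
          rw [hτ.vanQ, van_one]
          exact h
        obtain ⟨c, hc⟩ := hd1
        rw [van_one] at h1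
        rw [hc, map_mul, h1, zero_mul]
      · exact h
    have hcard := card_lt hPQ hF1Q hF10
    rw [Finset.card_univ, Fintype.card_fin] at hcard
    -- multiplication by `G`
    have hinj : Function.Injective (LinearMap.mulLeft ℂ G) := by
      intro x y hxy
      rw [LinearMap.mulLeft_apply, LinearMap.mulLeft_apply] at hxy
      exact mul_left_cancel₀ hG0 hxy
    have hmap : Submodule.map (LinearMap.mulLeft ℂ G)
        (VS (fun i => aff (P i)) (fun i => w i - u i) f1) ≤
          VS (fun i => aff (P i)) w d := by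
      rintro _ ⟨g, hg, rfl⟩
      rw [SetLike.mem_coe, mem_VS] at hg
      rw [LinearMap.mulLeft_apply, mem_VS]
      refine ⟨?_, fun i => ?_⟩
      · rw [← hGd]
        exact hGh.mul hg.1
      · exact van_mono (show w i ≤ u i + (w i - u i) by omega) (van_mul (hu i).1 (hg.2 i))
    have hfin := vs_fin (fun i => aff (P i)) w d
    have heq := Submodule.eq_of_le_of_finrank_le hmap (by
      rw [← (LinearEquiv.finrank_eq (Submodule.equivMapOfInjective _ hinj _)), hU _ _ hw, hk]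
      exact hcard)
    have hun : IsUnit G := nofix hbig hPQ hU hw (d := d) (by omega) (G := G) (by
      intro F' hF'
      rw [← heq] at hF'
      obtain ⟨g, -, hg⟩ := hF'
      exact ⟨g, hg.symm⟩)
    exact hGi.not_isUnit hun
  have h1 := split_main hbig hPQ hU hw hGd hG0 hF10 hGh hu (hGinv.gc hPQ hu)
    (by rw [← hGF]; exact hF.1) hfpos hf1pos
  have h2 : k ≤ (Finset.univ.filter fun j => eval (aff (Q j)) G = 0).card +
      (Finset.univ.filter fun j => eval (aff (Q j)) F1 = 0).card := by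
    have h3 := Finset.card_union_le (Finset.univ.filter fun j => eval (aff (Q j)) G = 0)
      (Finset.univ.filter fun j => eval (aff (Q j)) F1 = 0)
    have h4 : (Finset.univ.filter fun j => eval (aff (Q j)) G = 0) ∪
        (Finset.univ.filter fun j => eval (aff (Q j)) F1 = 0) = Finset.univ := by
      ext j
      simp only [Finset.mem_union, Finset.mem_filter, Finset.mem_univ, true_and, iff_true]
      exact hQ j
    rw [h4, Finset.card_univ, Fintype.card_fin] at h3
    exact h3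
  omega

/-- the multiplicities at the points `P` are exactly `w` -/
theorem exact_mult {w : Fin n → ℕ} (hw : GC w0 w) {d : ℕ} (hk : HH w d = k + 1)
    {F : MvPolynomial (Fin 3) ℂ}
    (hF : F ∈ VQ P Q w Finset.univ d) (hF0 : F ≠ 0) (i : Fin n) :
    Ord (aff (P i)) (w i) F := by
  obtain ⟨hFh, hFm⟩ := (mem_VS _ _ _ _).1 hF.1
  have hex : ∀ i, ∃ m, Ord (aff (P i)) m F := fun i => exists_ord hF0 hFh
  choose a ha using hex
  have haG : GC w0 a := (inv_F hbig hPQ hU hw hk hF hF0).gc hPQ ha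
  have hle : ∀ i, w i ≤ a i := by
    intro i
    by_contra hcon
    exact (ha i).2 (van_mono (by omega) (hFm i))
  have h3 : F ∈ VQ P Q a Finset.univ d :=
    ⟨(mem_VS _ _ _ _).2 ⟨hFh, fun i => (ha i).1⟩, hF.2⟩
  have h4 := card_lt hPQ h3 hF0
  rw [hU _ _ haG, Finset.card_univ, Fintype.card_fin] at h4
  have h5 := eq_of_HH (w := w) (w' := a) (e := d) hle (by omega) (by omega) i
  rw [h5]
  exact ha i

/-- invariant factors of the only curve of a system are trivial -/
theorem star {w : Fin n → ℕ} (hw : GC w0 w) {d : ℕ} (hk : HH w d = 1)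
    {F H : MvPolynomial (Fin 3) ℂ}
    (hF : F ∈ VS (fun i => aff (P i)) w d) (hF0 : F ≠ 0) (hH : H ∣ F)
    (hinv : GInv w0 P Q H) (hnu : ¬ IsUnit H) : Associated H F := by
  classical
  obtain ⟨B, hB⟩ := hH
  have hH0 : H ≠ 0 := by
    rintro rfl
    exact hF0 (by rw [hB, zero_mul])
  have hB0 : B ≠ 0 := by
    rintro rfl
    exact hF0 (by rw [hB, mul_zero])
  obtain ⟨hFh, hFm⟩ := (mem_VS _ _ _ _).1 hF
  have hHh := Pool.Agent.Chud.homog_of_dvd hFh hF0 ⟨B, hB⟩
  have hex : ∀ i, ∃ m, Ord (aff (P i)) m H := fun i => exists_ord hH0 hHh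
  choose a ha using hex
  have hd : H.totalDegree + B.totalDegree = d := by
    rw [← totalDegree_mul_of_isDomain hH0 hB0, ← hB]
    exact hFh.totalDegree hF0
  rcases Nat.eq_zero_or_pos B.totalDegree with h0 | hpos
  · have h1 : IsUnit B := hom_zero_unit hB0 h0
    rw [hB]
    exact (associated_mul_unit_right H B h1)
  · exfalso
    have h1 := split_main hbig hPQ hU hw hd hH0 hB0 hHh ha (hinv.gc hPQ ha) (by rw [← hB]; exact hF)
      (deg_pos_of_not_unit hH0 hnu) hpos
    omega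

/-- **the components of the only curve of a system are conjugate and reduced** -/
theorem orbit {w : Fin n → ℕ} (hw : GC w0 w) {d : ℕ} (hk : HH w d = 1)
    {F : MvPolynomial (Fin 3) ℂ}
    (hF : F ∈ VS (fun i => aff (P i)) w d) (hF0 : F ≠ 0) (hFi : GInv w0 P Q F)
    {G : MvPolynomial (Fin 3) ℂ} (hGi : Irreducible G) (hG : G ∣ F) :
    ¬ G * G ∣ F ∧ ∀ G', Irreducible G' → G' ∣ F →
      ∃ τ σ, Acts P Q τ σ ∧ Pres w0 σ ∧ Associated (ph τ G) G' := by
  classical
  obtain ⟨hFh, hFm⟩ := (mem_VS _ _ _ _).1 hF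
  obtain ⟨S, hS⟩ : ∃ S : Set (MvPolynomial (Fin 3) ℂ),
      S = {D | ∀ τ σ, Acts P Q τ σ → Pres w0 σ → ph τ G ∣ D} := ⟨_, rfl⟩
  have hFd : ∀ τ σ, Acts P Q τ σ → Pres w0 σ → ph τ G ∣ F := fun τ σ hτ hσ =>
    (ph_dvd τ hG).trans (hFi τ σ hτ hσ).dvd
  have hFS : F ∈ S := by
    rw [hS]
    exact hFd
  obtain ⟨H, hH0, hH⟩ := exists_gcd S hFS hF0
  have hHS : ∀ D ∈ S, H ∣ D := (hH H).1 dvd_rfl
  have hGH : ∀ τ σ, Acts P Q τ σ → Pres w0 σ → ph τ G ∣ H := fun τ σ hτ hσ =>
    (hH _).2 fun D hD => by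
      rw [hS] at hD
      exact hD τ σ hτ hσ
  have hHh := Pool.Agent.Chud.homog_of_dvd hFh hF0 (hHS F hFS)
  have hHinv : GInv w0 P Q H := by
    intro τ' σ' hτ' hσ'
    refine assoc_of_dvd hH0 ((hH _).2 fun D hD => ?_) ?_
    · have h1 : ph τ'.symm D ∈ S := by
        rw [hS] at hD ⊢
        intro τ σ hτ hσ
        have h2 := ph_dvd τ'.symm (hD _ _ (hτ.trans hτ') (hσ.trans hσ'))
        rw [ph_trans] at h2
        have h3 : ph τ'.symm (ph τ' (ph τ G)) = ph τ G := by
          have := ph_symm_apply τ'.symm (ph τ G)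
          rwa [RingEquiv.symm_symm] at this
        rwa [h3] at h2
      have h2 := ph_dvd τ' (hHS _ h1)
      rwa [ph_symm_apply] at h2
    · rw [(ph_hom τ' hHh).totalDegree (ph_ne τ' hH0)]
  have hact : Acts P Q (RingEquiv.refl ℂ) (Equiv.refl (Fin n)) :=
    ⟨fun i b => rfl, fun j b => rfl⟩
  have hHnu : ¬ IsUnit H := by
    intro hu
    have h1 := hGH _ _ hact fun i => rfl
    exact (ph_irr (RingEquiv.refl ℂ) hGi).not_isUnit (isUnit_of_dvd_unit h1 hu)
  have hHF := star hbig hPQ hU hw hk hF hF0 (hHS F hFS) hHinv hHnu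
  have hmin : ∀ D ∈ S, F ∣ D := fun D hD => hHF.symm.dvd.trans (hHS D hD)
  -- a proper cofactor is not in `S`
  have hprop : ∀ A D : MvPolynomial (Fin 3) ℂ, Irreducible A → F = A * D → D ∉ S := by
    intro A D hA hAD hD
    have hD0 : D ≠ 0 := by
      rintro rfl
      exact hF0 (by rw [hAD, mul_zero])
    obtain ⟨c, hc⟩ := hmin D hD
    have hc0 : c ≠ 0 := by
      rintro rfl
      exact hD0 (by rw [hc, mul_zero])
    have h1 := congrArg totalDegree hAD
    rw [totalDegree_mul_of_isDomain hA.ne_zero hD0] at h1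
    have h2 := congrArg totalDegree hc
    rw [totalDegree_mul_of_isDomain hF0 hc0] at h2
    have h3 := deg_pos_of_not_unit hA.ne_zero hA.not_isUnit
    omega
  constructor
  · rintro ⟨B, hB⟩
    refine hprop G (G * B) hGi (by rw [hB, mul_assoc]) ?_
    rw [hS]
    intro τ σ hτ hσ
    have h1 : ph τ G ∣ G * (G * B) := by
      rw [← mul_assoc, ← hB]
      exact hFd τ σ hτ hσ
    rcases (ph_irr τ hGi).prime.dvd_or_dvd h1 with h | h
    · exact h.trans (dvd_mul_right G B)
    · exact h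
  · intro G' hG'i hG'
    by_contra hcon
    push Not at hcon
    obtain ⟨D, hD⟩ := hG'
    refine hprop G' D hG'i hD ?_
    rw [hS]
    intro τ σ hτ hσ
    have h1 : ph τ G ∣ G' * D := by
      rw [← hD]
      exact hFd τ σ hτ hσ
    rcases (ph_irr τ hGi).prime.dvd_or_dvd h1 with h | h
    · exact absurd ((ph_irr τ hGi).associated_of_dvd hG'i h) (hcon τ σ hτ hσ)
    · exact h

end

end Pool.Agent.Q299.IG
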